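import Pool.Agent.H99.Jump.Core

/-!
# Increments of eventually increasing representation functions: the results
-/

open Finset PowerSeries Filter Topology
open Pool.Agent.H99.Inc

namespace Pool.Agent.H99.Jump

theorem sq_sum_nonneg (A : Set ℕ) (k : ℕ) {x : ℝ} (h0 : 0 < x) :
    0 ≤ ∑' n, (inc A k n) ^ 2 * x ^ n :=
  tsum_nonneg fun _ => mul_nonneg (sq_nonneg _) (pow_nonneg h0.le _)

theorem usum_nonneg (β : ℝ) {x : ℝ} (h0 : 0 < x) : 0 ≤ ∑' n, (bc β n) ^ 2 * x ^ n :=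
  tsum_nonneg fun _ => mul_nonneg (sq_nonneg _) (pow_nonneg h0.le _)

/-- The square sum of the increments, `k ≥ 4`. -/
theorem square_sum_ge {k : ℕ} (hk : 4 ≤ k) : ∃ c > 0, ∀ (A : Set ℕ) (x : ℝ), 0 < x → x < 1 →
    c * (gen A x) ^ k ≤ ∑' n, (inc A k n) ^ 2 * x ^ n := by
  obtain ⟨C, hC, hU⟩ := usum_le hk
  refine ⟨1 / C ^ (k - 1), by positivity, fun A x h0 h1 => ?_⟩
  have h2 := main_ineq A (by omega : 2 ≤ k) h0 h1
  have h3 := pow_le_pow_left₀ (usum_nonneg (1 / ((k : ℝ) - 1)) h0) (hU x h0 h1) (k - 1)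
  have h4 := mul_le_mul_of_nonneg_left h3 (sq_sum_nonneg A k h0)
  rw [one_div_mul_eq_div, div_le_iff₀ (by positivity)]
  linarith

/-- The square sum of the increments, `k = 3`. -/
theorem square_sum_ge_three : ∃ c > 0, ∀ (A : Set ℕ) (x : ℝ), 1 / 2 ≤ x → x < 1 →
    c * (gen A x) ^ 3 ≤ (∑' n, (inc A 3 n) ^ 2 * x ^ n) * (Real.log (1 / (1 - x))) ^ 2 := by
  obtain ⟨C, hC, hU⟩ := usum_le_log
  refine ⟨1 / C ^ 2, by positivity, fun A x h0 h1 => ?_⟩
  have hx : 0 < x := by linarith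
  have h2 := main_ineq A (by norm_num : 2 ≤ 3) hx h1
  have h5 : (1 : ℝ) / (((3 : ℕ) : ℝ) - 1) = 1 / 2 := by norm_num
  rw [h5, show 3 - 1 = 2 from rfl] at h2
  have h3 := pow_le_pow_left₀ (usum_nonneg (1 / 2) hx) (hU x h0 h1) 2
  have h4 := mul_le_mul_of_nonneg_left h3 (sq_sum_nonneg A 3 hx)
  rw [one_div_mul_eq_div, div_le_iff₀ (by positivity)]
  rw [mul_pow] at h4
  linarith

theorem nat_mul_pow_le (n : ℕ) {y : ℝ} (h0 : 0 ≤ y) (h1 : y < 1) :
    (n : ℝ) * y ^ n ≤ 1 / (1 - y) := by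
  have h2 : 0 < 1 - y := by linarith
  have h3 : ∑ i ∈ range n, y ^ n ≤ ∑ i ∈ range n, y ^ i :=
    Finset.sum_le_sum fun i hi => pow_le_pow_of_le_one h0 h1.le (mem_range.1 hi).le
  rw [Finset.sum_const, card_range, nsmul_eq_mul, geom_sum_eq (by linarith)] at h3
  refine h3.trans ?_
  have h4 : (y ^ n - 1) / (y - 1) = (1 - y ^ n) / (1 - y) := by
    rw [← neg_div_neg_eq]
    ring_nf
  rw [h4]
  apply div_le_div_of_nonneg_right _ h2.le
  have := pow_nonneg h0 n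
  linarith

theorem one_le_log_nat {n : ℕ} (hn : 3 ≤ n) : 1 ≤ Real.log n := by
  have h3 : (3 : ℝ) ≤ n := by exact_mod_cast hn
  rw [Real.le_log_iff_exp_le (by linarith)]
  have := Real.exp_one_lt_d9
  linarith

theorem log_sq_le_sqrt {t : ℝ} (ht : 1 ≤ t) : (Real.log t) ^ 2 ≤ 16 * Real.sqrt t := by
  have h0 : 0 ≤ t := by linarith
  have h1 := Real.log_nonneg ht
  have h2 : Real.log t ≤ 4 * t ^ (1 / 4 : ℝ) := by
    have := Real.log_le_rpow_div h0 (by norm_num : (0 : ℝ) < 1 / 4)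
    linarith
  have h3 : (4 * t ^ (1 / 4 : ℝ)) ^ 2 = 16 * Real.sqrt t := by
    rw [mul_pow, ← Real.rpow_natCast (t ^ (1 / 4 : ℝ)) 2, ← Real.rpow_mul h0, Real.sqrt_eq_rpow]
    norm_num
  rw [← h3]
  exact pow_le_pow_left₀ h1 h2 2

theorem omega_three {n : ℕ} (hn : 3 ≤ n) {y : ℝ} (h0 : 1 / 2 ≤ y) (h1 : y < 1) :
    (n : ℝ) / (Real.log n) ^ 2 * y ^ n ≤ 16 / ((1 - y) * (Real.log (1 / (1 - y))) ^ 2) := by
  have hy0 : 0 ≤ y := by linarith
  have h2 : 0 < 1 - y := by linarith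
  set t : ℝ := 1 / (1 - y) with ht
  have ht2 : 2 ≤ t := by
    rw [ht, le_div_iff₀ h2]
    linarith
  have ht0 : 0 < t := by linarith
  have hlt : 0 < Real.log t := Real.log_pos (by linarith)
  have hln := one_le_log_nat hn
  have hln0 : 0 < Real.log n := by linarith
  have hn0 : (0 : ℝ) < n := by
    have : 0 < n := by omega
    exact_mod_cast this
  have h3 : 16 / ((1 - y) * (Real.log t) ^ 2) = 16 * t / (Real.log t) ^ 2 := by
    rw [ht]
    field_simp
  rw [h3, le_div_iff₀ (by positivity), div_mul_eq_mul_div, div_mul_eq_mul_div,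
    div_le_iff₀ (by positivity)]
  rcases le_or_gt (Real.sqrt t) n with h4 | h4
  · have h5 : Real.log t ≤ 2 * Real.log n := by
      have h6 := Real.log_le_log (Real.sqrt_pos.2 ht0) h4
      rw [Real.log_sqrt ht0.le] at h6
      linarith
    have h6 : (Real.log t) ^ 2 ≤ 4 * (Real.log n) ^ 2 := by
      have := pow_le_pow_left₀ hlt.le h5 2
      rw [mul_pow] at this
      linarith
    have h7 : (n : ℝ) * y ^ n ≤ t := nat_mul_pow_le n hy0 h1
    calc (n : ℝ) * y ^ n * (Real.log t) ^ 2 ≤ t * (4 * (Real.log n) ^ 2) := by gcongr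
      _ ≤ 16 * t * (Real.log n) ^ 2 := by
          have : 0 ≤ t * (Real.log n) ^ 2 := by positivity
          linarith
  · have h5 : (Real.log t) ^ 2 ≤ 16 * Real.sqrt t := log_sq_le_sqrt (by linarith)
    have h6 : y ^ n ≤ 1 := pow_le_one₀ hy0 h1.le
    have h7 : 1 ≤ (Real.log n) ^ 2 := one_le_pow₀ hln
    have h8 : Real.sqrt t * Real.sqrt t = t := Real.mul_self_sqrt ht0.le
    calc (n : ℝ) * y ^ n * (Real.log t) ^ 2 ≤ Real.sqrt t * 1 * (16 * Real.sqrt t) := by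
          gcongr
      _ = 16 * t * 1 := by rw [mul_one, mul_left_comm, h8, mul_one]
      _ ≤ 16 * t * (Real.log n) ^ 2 := by gcongr

theorem lim_three : Tendsto (fun x : ℝ => (1 - x) * (Real.log (1 / (1 - x))) ^ 2) (𝓝[<] 1) (𝓝 0) := by
  have h1 : Tendsto (fun x : ℝ => 16 * Real.sqrt (1 - x)) (𝓝[<] 1) (𝓝 0) := by
    have h2 : Tendsto (fun x : ℝ => 16 * Real.sqrt (1 - x)) (𝓝 1) (𝓝 (16 * Real.sqrt (1 - 1))) := by
      have : Continuous fun x : ℝ => 16 * Real.sqrt (1 - x) := by fun_prop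
      exact this.tendsto 1
    rw [sub_self, Real.sqrt_zero, mul_zero] at h2
    exact h2.mono_left nhdsWithin_le_nhds
  refine squeeze_zero' ?_ ?_ h1
  · filter_upwards [eventually_lt_one_half] with x ⟨h3, h4⟩
    have : 0 < 1 - x := by linarith
    positivity
  · filter_upwards [eventually_lt_one_half] with x ⟨h3, h4⟩
    have h5 : 0 < 1 - x := by linarith
    have h6 : 1 ≤ 1 / (1 - x) := by
      rw [le_div_iff₀ h5]
      linarith
    have h7 := mul_le_mul_of_nonneg_left (log_sq_le_sqrt h6) h5.le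
    refine h7.trans (le_of_eq ?_)
    rw [Real.sqrt_div zero_le_one, Real.sqrt_one]
    have h8 : Real.sqrt (1 - x) * Real.sqrt (1 - x) = 1 - x := Real.mul_self_sqrt h5.le
    have h9 : 0 < Real.sqrt (1 - x) := Real.sqrt_pos.2 h5
    field_simp
    nlinarith

/-- Increments of order `n`, `k ≥ 4`. -/
theorem frequently_inc_ge {k : ℕ} (hk : 4 ≤ k) : ∃ c > 0, ∀ A : Set ℕ, A.Infinite →
    (∃ n₀, ∀ n ≥ n₀, R1 A k n ≤ R1 A k (n + 1)) →
      ∃ᶠ n : ℕ in atTop, c * n ≤ (R1 A k n : ℝ) - R1 A k (n - 1) := by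
  obtain ⟨c, hc, hD⟩ := square_sum_ge hk
  refine ⟨c / (4 * 3 ^ k * 1), by positivity, fun A hA ⟨n₀, hmono⟩ => ?_⟩
  have h := jump_core (Λ := fun _ => 1) (ω := fun n => n) (c := c) (C := 1) hA (by omega) hmono hc
    one_pos (fun _ _ _ => one_pos) (fun _ _ _ _ _ => le_rfl)
    (fun n _ y h0 h1 => by
      have := nat_mul_pow_le n (by linarith : (0 : ℝ) ≤ y) h1
      rwa [mul_one])
    (by
      have h2 : Tendsto (fun x : ℝ => (1 - x) * 1) (𝓝 1) (𝓝 ((1 - 1) * 1)) := by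
        have : Continuous fun x : ℝ => (1 - x) * 1 := by fun_prop
        exact this.tendsto 1
      rw [sub_self, zero_mul] at h2
      exact h2.mono_left nhdsWithin_le_nhds)
    (fun x h0 h1 => by
      rw [mul_one]
      exact hD A x (by linarith) h1)
  rw [frequently_atTop] at h ⊢
  intro a
  obtain ⟨b, hb, hbc⟩ := h (a + 1)
  obtain ⟨m, rfl⟩ : ∃ m, b = m + 1 := ⟨b - 1, by omega⟩
  refine ⟨m + 1, by omega, ?_⟩
  rw [inc_succ] at hbc
  rw [Nat.add_sub_cancel]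
  exact hbc

/-- Increments of order `n / log ^ 2 n`, `k = 3`. -/
theorem frequently_inc_ge_three : ∃ c > 0, ∀ A : Set ℕ, A.Infinite →
    (∃ n₀, ∀ n ≥ n₀, R1 A 3 n ≤ R1 A 3 (n + 1)) →
      ∃ᶠ n : ℕ in atTop, c * (n / (Real.log n) ^ 2) ≤ (R1 A 3 n : ℝ) - R1 A 3 (n - 1) := by
  obtain ⟨c, hc, hD⟩ := square_sum_ge_three
  refine ⟨c / (4 * 3 ^ 3 * 16), by positivity, fun A hA ⟨n₀, hmono⟩ => ?_⟩
  have h := jump_core (Λ := fun x => (Real.log (1 / (1 - x))) ^ 2)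
    (ω := fun n => n / (Real.log n) ^ 2) (c := c) (C := 16) hA (by omega) hmono hc
    (by norm_num)
    (fun x h0 h1 => by
      have h2 : 0 < 1 - x := by linarith
      have : 0 < Real.log (1 / (1 - x)) := Real.log_pos (by
        rw [lt_div_iff₀ h2]
        linarith)
      positivity)
    (fun x y h0 hxy h1 => by
      have h2 : 0 < 1 - x := by linarith
      have h3 : 0 < 1 - y := by linarith
      have h4 : 1 ≤ 1 / (1 - x) := by
        rw [le_div_iff₀ h2]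
        linarith
      have h5 : 1 / (1 - x) ≤ 1 / (1 - y) := one_div_le_one_div_of_le h3 (by linarith)
      exact pow_le_pow_left₀ (Real.log_nonneg h4) (Real.log_le_log (by linarith) h5) 2)
    (fun n hn y h0 h1 => omega_three hn h0 h1)
    lim_three
    (fun x h0 h1 => hD A x h0 h1)
  rw [frequently_atTop] at h ⊢
  intro a
  obtain ⟨b, hb, hbc⟩ := h (a + 1)
  obtain ⟨m, rfl⟩ : ∃ m, b = m + 1 := ⟨b - 1, by omega⟩
  refine ⟨m + 1, by omega, ?_⟩
  rw [inc_succ] at hbc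
  rw [Nat.add_sub_cancel]
  exact hbc

end Pool.Agent.H99.Jump
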