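import Pool.Agent.H99.Jump.Defs

/-!
# The square sum of the binomial coefficients

`bc_upper`: `bc β n ≤ C (n + 1) ^ (β - 1)`. For `k ≥ 4` the exponent of `(n + 1)` in the square is
`2 / (k - 1) - 2 < -1`, so the sum converges even for `x = 1`. For `k = 3` the square is at most
`C ^ 2 / (n + 1)` and `∑ x ^ n / (n + 1) = - log (1 - x) / x`
(for `x ≥ 1/2` this is at most `2 log (1 / (1 - x))`; `hasSum_log_one_sub` or similar).
-/

open Finset PowerSeries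
open Pool.Agent.H99.Inc

namespace Pool.Agent.H99.Jump

private theorem usum_bc_nonneg {β : ℝ} (hβ : 0 < β) (n : ℕ) : 0 ≤ bc β n := by
  unfold bc
  apply Finset.prod_nonneg
  intro i _
  positivity

private theorem usum_term {β C : ℝ} (hβ : 0 < β)
    (h : ∀ n : ℕ, bc β n ≤ C * ((n : ℝ) + 1) ^ (β - 1)) (n : ℕ) :
    (bc β n) ^ 2 ≤ C ^ 2 * ((n : ℝ) + 1) ^ (2 * β - 2) := by
  have h0 : (0 : ℝ) < (n : ℝ) + 1 := by positivity
  have h1 : (bc β n) ^ 2 ≤ (C * ((n : ℝ) + 1) ^ (β - 1)) ^ 2 :=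
    pow_le_pow_left₀ (usum_bc_nonneg hβ n) (h n) 2
  refine h1.trans (le_of_eq ?_)
  rw [mul_pow, ← Real.rpow_natCast (((n : ℝ) + 1) ^ (β - 1)) 2, ← Real.rpow_mul h0.le]
  congr 2
  push_cast
  ring

theorem usum_le {k : ℕ} (hk : 4 ≤ k) : ∃ C > 0, ∀ x : ℝ, 0 < x → x < 1 →
    ∑' n, (bc (1 / ((k : ℝ) - 1)) n) ^ 2 * x ^ n ≤ C := by
  have hk' : (4 : ℝ) ≤ k := by exact_mod_cast hk
  set β : ℝ := 1 / ((k : ℝ) - 1) with hβdef
  have hβ : 0 < β := by
    rw [hβdef]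
    apply div_pos one_pos
    linarith
  have hβ3 : β ≤ 1 / 3 := by
    rw [hβdef]
    apply one_div_le_one_div_of_le (by norm_num)
    linarith
  obtain ⟨C, hC, hCn⟩ := bc_upper hβ
  have hs : Summable (fun n : ℕ => ((n : ℝ) + 1) ^ (2 * β - 2)) := by
    have h1 : Summable (fun n : ℕ => (n : ℝ) ^ (2 * β - 2)) := by
      rw [Real.summable_nat_rpow]
      linarith
    have h2 := (summable_nat_add_iff 1).mpr h1
    refine h2.congr fun n => ?_
    push_cast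
    rfl
  have hs2 : Summable (fun n : ℕ => C ^ 2 * ((n : ℝ) + 1) ^ (2 * β - 2)) := hs.mul_left _
  refine ⟨∑' n : ℕ, C ^ 2 * ((n : ℝ) + 1) ^ (2 * β - 2), ?_, fun x hx0 hx1 => ?_⟩
  · apply hs2.tsum_pos (fun n => by positivity) 0
    positivity
  · have hle : ∀ n : ℕ, (bc β n) ^ 2 * x ^ n ≤ C ^ 2 * ((n : ℝ) + 1) ^ (2 * β - 2) := by
      intro n
      have h1 := usum_term hβ hCn n
      have h2 : x ^ n ≤ 1 := pow_le_one₀ hx0.le hx1.le
      calc (bc β n) ^ 2 * x ^ n ≤ (bc β n) ^ 2 * 1 :=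
            mul_le_mul_of_nonneg_left h2 (sq_nonneg _)
        _ ≤ _ := by rw [mul_one]; exact h1
    have hs3 : Summable (fun n : ℕ => (bc β n) ^ 2 * x ^ n) :=
      Summable.of_nonneg_of_le (fun n => by positivity) hle hs2
    exact hs3.tsum_le_tsum hle hs2

theorem usum_le_log : ∃ C > 0, ∀ x : ℝ, 1 / 2 ≤ x → x < 1 →
    ∑' n, (bc (1 / 2) n) ^ 2 * x ^ n ≤ C * Real.log (1 / (1 - x)) := by
  have hβ : (0 : ℝ) < 1 / 2 := by norm_num
  obtain ⟨C, hC, hCn⟩ := bc_upper hβ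
  refine ⟨2 * C ^ 2, by positivity, fun x hx0 hx1 => ?_⟩
  have hx : 0 < x := by linarith
  have hsum := Real.hasSum_pow_div_log_of_abs_lt_one (x := x) (by rw [abs_of_pos hx]; exact hx1)
  have hsum2 : HasSum (fun n : ℕ => C ^ 2 / x * (x ^ (n + 1) / ((n : ℝ) + 1)))
      (C ^ 2 / x * (-Real.log (1 - x))) := hsum.mul_left _
  have hle : ∀ n : ℕ, (bc (1 / 2) n) ^ 2 * x ^ n ≤ C ^ 2 / x * (x ^ (n + 1) / ((n : ℝ) + 1)) := by
    intro n
    have h0 : (0 : ℝ) < (n : ℝ) + 1 := by positivity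
    have h1 := usum_term hβ hCn n
    have h2 : ((n : ℝ) + 1) ^ (2 * (1 / 2 : ℝ) - 2) = ((n : ℝ) + 1)⁻¹ := by
      rw [show (2 * (1 / 2 : ℝ) - 2) = -1 by norm_num, Real.rpow_neg_one]
    rw [h2] at h1
    have h3 : C ^ 2 / x * (x ^ (n + 1) / ((n : ℝ) + 1)) = C ^ 2 * ((n : ℝ) + 1)⁻¹ * x ^ n := by
      field_simp
      rw [pow_succ, mul_comm]
    rw [h3]
    exact mul_le_mul_of_nonneg_right h1 (by positivity)
  have hs3 : Summable (fun n : ℕ => (bc (1 / 2) n) ^ 2 * x ^ n) :=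
    Summable.of_nonneg_of_le (fun n => by positivity) hle hsum2.summable
  have h4 := hs3.tsum_le_tsum hle hsum2.summable
  rw [hsum2.tsum_eq] at h4
  refine h4.trans ?_
  have hlog : 0 ≤ -Real.log (1 - x) := by
    have := Real.log_nonpos (x := 1 - x) (by linarith) (by linarith)
    linarith
  rw [one_div, Real.log_inv]
  apply mul_le_mul_of_nonneg_right _ hlog
  rw [div_le_iff₀ hx]
  nlinarith [sq_nonneg C]

end Pool.Agent.H99.Jump
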