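import Pool.Agent.H99.Jump.Hold
import Pool.Agent.H99.Jump.USum

/-!
# Increments of eventually increasing representation functions
-/

open Finset PowerSeries Filter Topology
open Pool.Agent.H99.Inc

namespace Pool.Agent.H99.Jump

theorem coeff_S_ind (A : Set ℕ) (n : ℕ) : coeff n (S (ind A) 1) = ind A n := by
  unfold S
  rw [coeff_mk, if_pos (one_dvd n), Nat.div_one]

theorem ind_nonneg (A : Set ℕ) (n : ℕ) : 0 ≤ ind A n := by
  unfold ind
  split_ifs <;> norm_num

theorem ind_le_one (A : Set ℕ) (n : ℕ) : ind A n ≤ 1 := by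
  unfold ind
  split_ifs <;> norm_num

theorem absConv_ind (A : Set ℕ) {y : ℝ} (h0 : 0 ≤ y) (h1 : y < 1) : AbsConv (S (ind A) 1) y := by
  unfold AbsConv
  refine Summable.of_nonneg_of_le (fun n => by positivity) (fun n => ?_)
    (summable_geometric_of_lt_one h0 h1)
  rw [coeff_S_ind, abs_of_nonneg (ind_nonneg A n)]
  exact mul_le_of_le_one_left (pow_nonneg h0 n) (ind_le_one A n)

theorem absConv_pow {f : PowerSeries ℝ} {y : ℝ} (h0 : 0 ≤ y) (hf : AbsConv f y) (k : ℕ) :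
    AbsConv (f ^ k) y ∧ ev (f ^ k) y = (ev f y) ^ k := by
  have hz : ‖((y : ℝ) : ℂ)‖ ≤ y := by
    rw [Complex.norm_real, Real.norm_eq_abs, abs_of_nonneg h0]
  induction k with
  | zero =>
    rw [pow_zero, pow_zero]
    constructor
    · unfold AbsConv
      refine summable_of_ne_finset_zero (s := {0}) fun n hn => ?_
      rw [coeff_one, if_neg (by simpa using hn), abs_zero, zero_mul]
    · unfold ev
      rw [tsum_eq_single 0]
      · simp
      · intro n hn
        rw [coeff_one, if_neg hn]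
        simp
  | succ k ih =>
    rw [pow_succ, pow_succ]
    exact ⟨ih.1.mul h0 hf, by rw [ev_mul h0 ih.1 hf hz, ih.2]⟩

theorem coeff_pow_S (A : Set ℕ) (k n : ℕ) : coeff n (S (ind A) 1 ^ k) = (R1 A k n : ℝ) := by
  rw [R1_eq_coeff]
  congr 1
  rw [Finset.prod_const, Finset.card_univ, Fintype.card_fin]

theorem summable_R1 (A : Set ℕ) (k : ℕ) {y : ℝ} (h0 : 0 ≤ y) (h1 : y < 1) :
    Summable fun n => (R1 A k n : ℝ) * y ^ n := by
  have h2 := (absConv_pow h0 (absConv_ind A h0 h1) k).1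
  unfold AbsConv at h2
  refine h2.congr fun n => ?_
  rw [coeff_pow_S, abs_of_nonneg (Nat.cast_nonneg _)]

theorem gen_pow (A : Set ℕ) (k : ℕ) {y : ℝ} (h0 : 0 ≤ y) (h1 : y < 1) :
    (gen A y) ^ k = ∑' n, (R1 A k n : ℝ) * y ^ n := by
  have h2 := (absConv_pow h0 (absConv_ind A h0 h1) k).2
  have h3 : ev (S (ind A) 1) y = ((gen A y : ℝ) : ℂ) := by
    unfold ev gen
    rw [Complex.ofReal_tsum]
    refine tsum_congr fun n => ?_
    rw [coeff_S_ind]
    push_cast
    rfl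
  have h4 : ev (S (ind A) 1 ^ k) y = ((∑' n, (R1 A k n : ℝ) * y ^ n : ℝ) : ℂ) := by
    unfold ev
    rw [Complex.ofReal_tsum]
    refine tsum_congr fun n => ?_
    rw [coeff_pow_S]
    push_cast
    rfl
  rw [h3, h4] at h2
  exact_mod_cast h2.symm

theorem summable_ind (A : Set ℕ) {y : ℝ} (h0 : 0 ≤ y) (h1 : y < 1) :
    Summable fun n => ind A n * y ^ n :=
  Summable.of_nonneg_of_le (fun n => mul_nonneg (ind_nonneg A n) (pow_nonneg h0 n))
    (fun n => mul_le_of_le_one_left (pow_nonneg h0 n) (ind_le_one A n))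
    (summable_geometric_of_lt_one h0 h1)

theorem gen_nonneg (A : Set ℕ) {y : ℝ} (h0 : 0 ≤ y) : 0 ≤ gen A y :=
  tsum_nonneg fun n => mul_nonneg (ind_nonneg A n) (pow_nonneg h0 n)

theorem gen_le (A : Set ℕ) {y : ℝ} (h0 : 0 ≤ y) (h1 : y < 1) : gen A y ≤ 1 / (1 - y) := by
  rw [one_div, ← tsum_geometric_of_lt_one h0 h1]
  exact (summable_ind A h0 h1).tsum_le_tsum
    (fun n => mul_le_of_le_one_left (pow_nonneg h0 n) (ind_le_one A n))
    (summable_geometric_of_lt_one h0 h1)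

theorem inc_zero (A : Set ℕ) (k : ℕ) : inc A k 0 = R1 A k 0 := by
  unfold inc; simp

theorem inc_succ (A : Set ℕ) (k n : ℕ) : inc A k (n + 1) = R1 A k (n + 1) - R1 A k n := by
  unfold inc; simp

theorem summable_shift (A : Set ℕ) (k : ℕ) {y : ℝ} (h0 : 0 ≤ y) (h1 : y < 1) :
    Summable fun n => (if n = 0 then 0 else (R1 A k (n - 1) : ℝ)) * y ^ n := by
  rw [← summable_nat_add_iff 1]
  refine ((summable_R1 A k h0 h1).mul_left y).congr fun n => ?_
  simp only [Nat.add_eq_zero_iff, one_ne_zero, and_false, if_false, Nat.add_sub_cancel]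
  ring

theorem summable_inc (A : Set ℕ) (k : ℕ) {y : ℝ} (h0 : 0 ≤ y) (h1 : y < 1) :
    Summable fun n => inc A k n * y ^ n := by
  refine ((summable_R1 A k h0 h1).sub (summable_shift A k h0 h1)).congr fun n => ?_
  unfold inc
  ring

theorem tsum_inc (A : Set ℕ) (k : ℕ) {y : ℝ} (h0 : 0 ≤ y) (h1 : y < 1) :
    ∑' n, inc A k n * y ^ n = (1 - y) * (gen A y) ^ k := by
  have h2 : ∑' n, inc A k n * y ^ n = ∑' n, (R1 A k n : ℝ) * y ^ n -
      ∑' n, (if n = 0 then 0 else (R1 A k (n - 1) : ℝ)) * y ^ n := by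
    rw [← (summable_R1 A k h0 h1).tsum_sub (summable_shift A k h0 h1)]
    refine tsum_congr fun n => ?_
    unfold inc
    ring
  have h3 : ∑' n, (if n = 0 then 0 else (R1 A k (n - 1) : ℝ)) * y ^ n =
      y * ∑' n, (R1 A k n : ℝ) * y ^ n := by
    rw [(summable_shift A k h0 h1).tsum_eq_zero_add, ← tsum_mul_left]
    simp only [if_true, zero_mul, zero_add, Nat.add_eq_zero_iff, one_ne_zero, and_false, if_false,
      Nat.add_sub_cancel]
    refine tsum_congr fun n => ?_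
    ring
  rw [h2, h3, gen_pow A k h0 h1]
  ring

theorem R1_pos {A : Set ℕ} {a : ℕ} (ha : a ∈ A) (k : ℕ) : 1 ≤ R1 A k (k * a) := by
  unfold R1
  have hfin : Finite {t : Fin k → ℕ // (∀ i, t i ∈ A) ∧ ∑ i, t i = k * a} := by
    have h1 : {t : Fin k → ℕ | ∀ i, t i ∈ Set.Iic (k * a)}.Finite :=
      Set.Finite.pi' fun _ => Set.finite_Iic _
    have h2 : {t : Fin k → ℕ | (∀ i, t i ∈ A) ∧ ∑ i, t i = k * a}.Finite := by
      refine h1.subset ?_
      rintro t ⟨-, ht⟩ i
      have h3 : t i ≤ ∑ j, t j :=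
        Finset.single_le_sum (f := t) (fun j _ => Nat.zero_le _) (Finset.mem_univ i)
      rw [ht] at h3
      exact h3
    exact h2.to_subtype
  have : Nonempty {t : Fin k → ℕ // (∀ i, t i ∈ A) ∧ ∑ i, t i = k * a} :=
    ⟨⟨fun _ => a, fun _ => ha, by simp⟩⟩
  exact Nat.card_pos

end Pool.Agent.H99.Jump
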