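import Pool.Agent.H99.Jump.Jump

/-!
# Increments of eventually increasing representation functions: the main argument
-/

open Finset PowerSeries Filter Topology
open Pool.Agent.H99.Inc

namespace Pool.Agent.H99.Jump

theorem mono_of {r : ℕ → ℕ} {n₀ : ℕ} (h : ∀ n ≥ n₀, r n ≤ r (n + 1)) {m n : ℕ} (hm : n₀ ≤ m)
    (hmn : m ≤ n) : r m ≤ r n := by
  induction n, hmn using Nat.le_induction with
  | base => exact le_rfl
  | succ n hn ih => exact ih.trans (h n (hm.trans hn))

theorem eventually_lt_one_half : ∀ᶠ y in 𝓝[<] (1 : ℝ), 3 / 4 ≤ y ∧ y < 1 := by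
  have h1 : ∀ᶠ y in 𝓝[<] (1 : ℝ), y < 1 := self_mem_nhdsWithin
  have h2 : ∀ᶠ y in 𝓝[<] (1 : ℝ), 3 / 4 < y :=
    mem_nhdsWithin_of_mem_nhds (lt_mem_nhds (by norm_num))
  filter_upwards [h1, h2] with y h3 h4 using ⟨h4.le, h3⟩

/-- Lower bound from a lower bound for the representation function. -/
theorem gen_pow_ge (A : Set ℕ) (k : ℕ) {K : ℝ} {n₂ : ℕ} (hK : ∀ n ≥ n₂, K ≤ (R1 A k n : ℝ))
    {y : ℝ} (h0 : 0 ≤ y) (h1 : y < 1) : K * y ^ n₂ ≤ (1 - y) * (gen A y) ^ k := by
  rw [gen_pow A k h0 h1]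
  have hs := summable_R1 A k h0 h1
  have h2 : ∑' n, K * y ^ n₂ * y ^ n ≤ ∑' n, (R1 A k n : ℝ) * y ^ n := by
    rw [← hs.sum_add_tsum_nat_add n₂]
    have h3 : 0 ≤ ∑ n ∈ range n₂, (R1 A k n : ℝ) * y ^ n :=
      Finset.sum_nonneg fun n _ => by positivity
    have h4 : ∑' n, K * y ^ n₂ * y ^ n ≤ ∑' n, (R1 A k (n + n₂) : ℝ) * y ^ (n + n₂) := by
      refine Summable.tsum_le_tsum (fun n => ?_)
        ((summable_geometric_of_lt_one h0 h1).mul_left _) ((summable_nat_add_iff n₂).2 hs)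
      rw [pow_add, mul_assoc, mul_comm (y ^ n₂) (y ^ n)]
      exact mul_le_mul_of_nonneg_right (hK _ (by omega)) (by positivity)
    linarith
  rw [tsum_mul_left, tsum_geometric_of_lt_one h0 h1] at h2
  have h5 : 0 < 1 - y := by linarith
  have h6 := mul_le_mul_of_nonneg_left h2 h5.le
  have h7 : (1 - y) * (K * y ^ n₂ * (1 - y)⁻¹) = K * y ^ n₂ := by
    field_simp
  rw [h7] at h6
  exact h6

/-- The generating function cannot triple at every step. -/
theorem frequently_le {A : Set ℕ} (hA : A.Infinite) :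
    ∃ᶠ y in 𝓝[<] (1 : ℝ), gen A y ≤ 3 * gen A (y ^ 2) := by
  intro hcon
  have h1 : Tendsto (fun j : ℕ => Real.exp (-(1 / 2 : ℝ) ^ j)) atTop (𝓝[<] 1) := by
    refine tendsto_nhdsWithin_iff.2 ⟨?_, Eventually.of_forall fun j => ?_⟩
    · have h2 : Tendsto (fun j : ℕ => -(1 / 2 : ℝ) ^ j) atTop (𝓝 (-0)) :=
        (tendsto_pow_atTop_nhds_zero_of_lt_one (by norm_num) (by norm_num)).neg
      rw [neg_zero] at h2
      have h3 := (Real.continuous_exp.tendsto 0).comp h2
      rw [Real.exp_zero] at h3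
      exact h3
    · show Real.exp _ < 1
      rw [Real.exp_lt_one_iff]
      have : (0 : ℝ) < (1 / 2) ^ j := by positivity
      linarith
  obtain ⟨J, hJ⟩ := eventually_atTop.1 (h1.eventually hcon)
  set Y : ℕ → ℝ := fun j => Real.exp (-(1 / 2 : ℝ) ^ j) with hY
  have hY0 : ∀ j, 0 < Y j := fun j => Real.exp_pos _
  have hY1 : ∀ j, Y j < 1 := by
    intro j
    show Real.exp _ < 1
    rw [Real.exp_lt_one_iff]
    have : (0 : ℝ) < (1 / 2) ^ j := by positivity
    linarith
  have hsq : ∀ j, Y (j + 1) ^ 2 = Y j := by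
    intro j
    show Real.exp _ ^ 2 = Real.exp _
    rw [← Real.exp_nat_mul]
    congr 1
    rw [pow_succ]
    push_cast
    ring
  have hstep : ∀ j ≥ J, 3 * gen A (Y j) ≤ gen A (Y (j + 1)) := by
    intro j hj
    have h2 := hJ (j + 1) (by omega)
    rw [not_le] at h2
    have h3 : Y (j + 1) ^ 2 = Y j := hsq j
    have h4 : 3 * gen A (Y (j + 1) ^ 2) < gen A (Y (j + 1)) := h2
    rw [h3] at h4
    exact h4.le
  have hpow : ∀ m, 3 ^ m * gen A (Y J) ≤ gen A (Y (J + m)) := by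
    intro m
    induction m with
    | zero => simp
    | succ m ih =>
      have := hstep (J + m) (by omega)
      rw [pow_succ, ← Nat.add_assoc]
      linarith [mul_le_mul_of_nonneg_left ih (by norm_num : (0 : ℝ) ≤ 3)]
  have hup : ∀ j, gen A (Y j) ≤ 2 * 2 ^ j := by
    intro j
    refine (gen_le A (hY0 j).le (hY1 j)).trans ?_
    have h2 : (1 / 2 : ℝ) ^ j / 2 ≤ 1 - Y j := by
      have h3 : (0 : ℝ) < (1 / 2) ^ j := by positivity
      have h4 : (1 / 2 : ℝ) ^ j ≤ 1 := pow_le_one₀ (by norm_num) (by norm_num)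
      have h5 : Y j ≤ 1 / (1 + (1 / 2 : ℝ) ^ j) := by
        show Real.exp _ ≤ _
        rw [Real.exp_neg, ← one_div]
        apply one_div_le_one_div_of_le (by linarith)
        have := Real.add_one_le_exp ((1 / 2 : ℝ) ^ j)
        linarith
      have h6 : 1 / (1 + (1 / 2 : ℝ) ^ j) ≤ 1 - (1 / 2 : ℝ) ^ j / 2 := by
        rw [div_le_iff₀ (by linarith)]
        nlinarith
      linarith
    have h3 : (0 : ℝ) < (1 / 2) ^ j / 2 := by positivity
    refine (one_div_le_one_div_of_le h3 h2).trans (le_of_eq ?_)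
    rw [one_div_pow]
    field_simp
  have hpos : 0 < gen A (Y J) := by
    obtain ⟨a, ha⟩ := hA.nonempty
    refine lt_of_lt_of_le ?_ ((summable_ind A (hY0 J).le (hY1 J)).le_tsum a
      fun n _ => mul_nonneg (ind_nonneg A n) (pow_nonneg (hY0 J).le n))
    have : ind A a = 1 := by
      unfold ind
      rw [if_pos ha]
    rw [this, one_mul]
    exact pow_pos (hY0 J) a
  have hlim : Tendsto (fun m : ℕ => (3 / 2 : ℝ) ^ m) atTop atTop :=
    tendsto_pow_atTop_atTop_of_one_lt (by norm_num)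
  obtain ⟨m, hm⟩ := (hlim.eventually_gt_atTop (2 * 2 ^ J / gen A (Y J))).exists
  have h2 := (hpow m).trans (hup (J + m))
  rw [div_lt_iff₀ hpos, div_pow, div_mul_eq_mul_div, lt_div_iff₀ (by positivity)] at hm
  rw [pow_add] at h2
  linarith

variable {A : Set ℕ} {k n₀ : ℕ}

theorem inc_nonneg (hmono : ∀ n ≥ n₀, R1 A k n ≤ R1 A k (n + 1)) {n : ℕ} (hn : n₀ < n) :
    0 ≤ inc A k n := by
  obtain ⟨m, rfl⟩ : ∃ m, n = m + 1 := ⟨n - 1, by omega⟩
  rw [inc_succ]
  have h1 := hmono m (by omega)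
  have h2 : (R1 A k m : ℝ) ≤ R1 A k (m + 1) := by exact_mod_cast h1
  linarith

/-- Comparison of the square sum. -/
theorem square_sum_le {a b : ℕ → ℝ} {N : ℕ} (ha : ∀ n ≥ N, a n = 0) (hb : ∀ n ≥ N, b n = 0)
    {x y M : ℝ} (hx0 : 0 ≤ x) (_hx1 : x < 1) (hy0 : 0 ≤ y) (hy1 : y < 1)
    (h : ∀ n, (inc A k n) ^ 2 * x ^ n ≤ a n + M * ((inc A k n + b n) * y ^ n)) :
    ∑' n, (inc A k n) ^ 2 * x ^ n ≤
      ∑ n ∈ range N, a n + M * ((1 - y) * (gen A y) ^ k + ∑ n ∈ range N, b n * y ^ n) := by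
  have ha' : ∀ n ∉ range N, a n = 0 := fun n hn => ha n (by simpa using hn)
  have hb' : ∀ n ∉ range N, b n * y ^ n = 0 := fun n hn => by
    rw [hb n (by simpa using hn), zero_mul]
  have sa : Summable a := summable_of_ne_finset_zero ha'
  have sb : Summable fun n => b n * y ^ n := summable_of_ne_finset_zero hb'
  have sd := summable_inc A k hy0 hy1
  have s1 : Summable fun n => a n + M * ((inc A k n + b n) * y ^ n) := by
    refine sa.add (((sd.add sb).mul_left M).congr fun n => ?_)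
    ring
  have s2 : Summable fun n => (inc A k n) ^ 2 * x ^ n :=
    Summable.of_nonneg_of_le (fun n => mul_nonneg (sq_nonneg _) (pow_nonneg hx0 n)) h s1
  refine (s2.tsum_le_tsum h s1).trans (le_of_eq ?_)
  have h2 : ∑' n, (a n + M * ((inc A k n + b n) * y ^ n)) =
      ∑' n, a n + M * (∑' n, inc A k n * y ^ n + ∑' n, b n * y ^ n) := by
    rw [← sd.tsum_add sb, ← tsum_mul_left, ← sa.tsum_add]
    · refine tsum_congr fun n => ?_
      ring
    · exact (sd.add sb).mul_left M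
  rw [h2, tsum_eq_sum ha', tsum_eq_sum hb', tsum_inc A k hy0 hy1]

/-- **The main argument.** -/
theorem jump_core (hA : A.Infinite) (hk : 1 ≤ k)
    (hmono : ∀ n ≥ n₀, R1 A k n ≤ R1 A k (n + 1)) {Λ : ℝ → ℝ} {ω : ℕ → ℝ} {c C : ℝ}
    (hc : 0 < c) (hC : 0 < C) (hΛ0 : ∀ x, 1 / 2 ≤ x → x < 1 → 0 < Λ x)
    (hΛm : ∀ x y, 1 / 2 ≤ x → x ≤ y → y < 1 → Λ x ≤ Λ y)
    (hω : ∀ n ≥ 3, ∀ y, 1 / 2 ≤ y → y < 1 → ω n * y ^ n ≤ C / ((1 - y) * Λ y))
    (hlim : Tendsto (fun x => (1 - x) * Λ x) (𝓝[<] 1) (𝓝 0))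
    (hD : ∀ x, 1 / 2 ≤ x → x < 1 →
      c * (gen A x) ^ k ≤ (∑' n, (inc A k n) ^ 2 * x ^ n) * Λ x) :
    ∃ᶠ n in atTop, c / (4 * 3 ^ k * C) * ω n ≤ inc A k n := by
  -- the representation function is positive from some point on
  obtain ⟨n₂, hn₂, hr1⟩ : ∃ n₂ ≥ n₀, ∀ n ≥ n₂, 1 ≤ R1 A k n := by
    obtain ⟨a, ha, han⟩ := hA.exists_gt n₀
    refine ⟨k * a, by nlinarith, fun n hn => (R1_pos ha k).trans (mono_of hmono (by nlinarith) hn)⟩
  have hlow : ∀ y, 0 ≤ y → y < 1 → y ^ n₂ ≤ (1 - y) * (gen A y) ^ k := by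
    intro y h0 h1
    have := gen_pow_ge A k (K := 1) (n₂ := n₂) (fun n hn => by exact_mod_cast hr1 n hn) h0 h1
    rwa [one_mul] at this
  have hpowlim : Tendsto (fun y : ℝ => y ^ n₂) (𝓝[<] 1) (𝓝 1) := by
    have := ((continuous_pow n₂).tendsto (1 : ℝ)).mono_left (nhdsWithin_le_nhds (s := Set.Iio 1))
    rwa [one_pow] at this
  -- no bound of the form `E * Λ` for `gen ^ k`
  have hnobound : ∀ E : ℝ, ∀ᶠ y in 𝓝[<] (1 : ℝ), E * Λ y < c / 2 * (gen A y) ^ k := by
    intro E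
    have h1 : Tendsto (fun y => E * ((1 - y) * Λ y)) (𝓝[<] 1) (𝓝 (E * 0)) := hlim.const_mul E
    have h2 : Tendsto (fun y : ℝ => c / 2 * y ^ n₂) (𝓝[<] 1) (𝓝 (c / 2 * 1)) :=
      hpowlim.const_mul _
    have h3 := h1.eventually_lt h2 (by rw [mul_zero, mul_one]; positivity)
    filter_upwards [h3, eventually_lt_one_half] with y h4 ⟨h5, h6⟩
    have h7 := hlow y (by linarith) h6
    have h8 : 0 < 1 - y := by linarith
    have h9 : c / 2 * y ^ n₂ ≤ c / 2 * ((1 - y) * (gen A y) ^ k) :=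
      mul_le_mul_of_nonneg_left h7 (by positivity)
    have h10 : (1 - y) * (E * Λ y) < (1 - y) * (c / 2 * (gen A y) ^ k) := by linarith
    exact lt_of_mul_lt_mul_left h10 h8.le
  -- the representation function is unbounded
  have hunb : ∀ K : ℕ, ∃ n₃, ∀ n ≥ n₃, K ≤ R1 A k n := by
    by_contra hcon
    push Not at hcon
    obtain ⟨K, hK⟩ := hcon
    have hB : ∀ n ≥ n₀, R1 A k n ≤ K := by
      intro n hn
      obtain ⟨m, hm, hlt⟩ := hK n
      exact (mono_of hmono hn hm).trans hlt.le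
    obtain ⟨B, hB0, hBall⟩ : ∃ B : ℝ, 0 ≤ B ∧ ∀ n, (R1 A k n : ℝ) ≤ B := by
      refine ⟨K + ∑ n ∈ range n₀, (R1 A k n : ℝ), by positivity, fun n => ?_⟩
      by_cases hn : n₀ ≤ n
      · have h1 : (R1 A k n : ℝ) ≤ K := by exact_mod_cast hB n hn
        have h2 : (0 : ℝ) ≤ ∑ n ∈ range n₀, (R1 A k n : ℝ) := by positivity
        linarith
      · have h1 : (R1 A k n : ℝ) ≤ ∑ n ∈ range n₀, (R1 A k n : ℝ) :=
          Finset.single_le_sum (f := fun n => (R1 A k n : ℝ)) (fun i _ => Nat.cast_nonneg _)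
            (mem_range.2 (by omega))
        have h2 : (0 : ℝ) ≤ K := Nat.cast_nonneg _
        linarith
    set a : ℕ → ℝ := fun n => if n ≤ n₀ then (inc A k n) ^ 2 else 0 with ha
    set b : ℕ → ℝ := fun n => if n ≤ n₀ then |inc A k n| else 0 with hb
    have hDle : ∀ y, 0 ≤ y → y < 1 → ∑' n, (inc A k n) ^ 2 * y ^ n ≤
        ∑ n ∈ range (n₀ + 1), a n + B * (B + ∑ n ∈ range (n₀ + 1), b n) := by
      intro y h0 h1
      have h2 := square_sum_le (A := A) (k := k) (a := a) (b := b) (N := n₀ + 1) (x := y) (y := y)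
        (M := B) (fun n hn => if_neg (by omega)) (fun n hn => if_neg (by omega)) h0 h1 h0 h1
        (fun n => by
          have hy : 0 ≤ y ^ n := pow_nonneg h0 n
          have hy1 : y ^ n ≤ 1 := pow_le_one₀ h0 h1.le
          by_cases hn : n ≤ n₀
          · simp only [ha, hb, if_pos hn]
            have h3 : (inc A k n) ^ 2 * y ^ n ≤ (inc A k n) ^ 2 :=
              mul_le_of_le_one_right (sq_nonneg _) hy1
            have h4 : 0 ≤ inc A k n + |inc A k n| := by linarith [neg_abs_le (inc A k n)]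
            have h5 : 0 ≤ B * ((inc A k n + |inc A k n|) * y ^ n) := by positivity
            linarith
          · simp only [ha, hb, if_neg hn]
            have h3 := inc_nonneg hmono (n := n) (by omega)
            have h4 : inc A k n ≤ B := by
              obtain ⟨m, rfl⟩ : ∃ m, n = m + 1 := ⟨n - 1, by omega⟩
              rw [inc_succ]
              have := hBall (m + 1)
              have h5 : (0 : ℝ) ≤ R1 A k m := Nat.cast_nonneg _
              linarith
            rw [zero_add, add_zero, sq, mul_assoc]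
            exact mul_le_mul_of_nonneg_right h4 (by positivity))
      refine h2.trans ?_
      have h3 : (1 - y) * (gen A y) ^ k ≤ B := by
        rw [gen_pow A k h0 h1]
        have h4 : ∑' n, (R1 A k n : ℝ) * y ^ n ≤ ∑' n, B * y ^ n :=
          (summable_R1 A k h0 h1).tsum_le_tsum
            (fun n => mul_le_mul_of_nonneg_right (hBall n) (pow_nonneg h0 n))
            ((summable_geometric_of_lt_one h0 h1).mul_left B)
        rw [tsum_mul_left, tsum_geometric_of_lt_one h0 h1] at h4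
        have h5 : 0 < 1 - y := by linarith
        have h6 := mul_le_mul_of_nonneg_left h4 h5.le
        have h7 : (1 - y) * (B * (1 - y)⁻¹) = B := by field_simp
        rwa [h7] at h6
      have h4 : ∑ n ∈ range (n₀ + 1), b n * y ^ n ≤ ∑ n ∈ range (n₀ + 1), b n := by
        refine Finset.sum_le_sum fun n _ => ?_
        refine mul_le_of_le_one_right ?_ (pow_le_one₀ h0 h1.le)
        simp only [hb]
        split_ifs
        · exact abs_nonneg _
        · exact le_rfl
      have h5 : B * ((1 - y) * (gen A y) ^ k + ∑ n ∈ range (n₀ + 1), b n * y ^ n) ≤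
          B * (B + ∑ n ∈ range (n₀ + 1), b n) :=
        mul_le_mul_of_nonneg_left (by linarith) hB0
      linarith
    obtain ⟨y, hy, hy1, hy2⟩ := ((hnobound (∑ n ∈ range (n₀ + 1), a n +
      B * (B + ∑ n ∈ range (n₀ + 1), b n))).and eventually_lt_one_half).exists
    have h1 := hD y (by linarith) hy2
    have h2 := mul_le_mul_of_nonneg_right (hDle y (by linarith) hy2)
      (hΛ0 y (by linarith) hy2).le
    have h3 : 0 ≤ (gen A y) ^ k := pow_nonneg (gen_nonneg A (by linarith)) k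
    have h4 : c / 2 * (gen A y) ^ k ≤ c * (gen A y) ^ k := by
      have := mul_nonneg hc.le h3
      linarith
    linarith
  -- the contradiction
  by_contra hcon
  rw [not_frequently, eventually_atTop] at hcon
  obtain ⟨N', hN'⟩ := hcon
  set ε : ℝ := c / (4 * 3 ^ k * C) with hε
  have hε0 : 0 < ε := by positivity
  set N : ℕ := max N' (max (n₀ + 1) 3) with hN
  have hN1 : ∀ n ≥ N, inc A k n < ε * ω n := fun n hn =>
    not_le.1 (hN' n ((le_max_left _ _).trans hn))
  have hN2 : n₀ + 1 ≤ N := (le_max_left _ _).trans (le_max_right _ _)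
  have hN3 : 3 ≤ N := (le_max_right _ _).trans (le_max_right _ _)
  set a : ℕ → ℝ := fun n => if n < N then (inc A k n) ^ 2 else 0 with ha
  set b : ℕ → ℝ := fun n => if n < N then |inc A k n| else 0 with hb
  have hb0 : ∀ n, 0 ≤ b n := by
    intro n
    simp only [hb]
    split_ifs
    · exact abs_nonneg _
    · exact le_rfl
  set C₁ : ℝ := ∑ n ∈ range N, b n with hC₁
  have hC₁0 : 0 ≤ C₁ := Finset.sum_nonneg fun n _ => hb0 n
  obtain ⟨K, hK⟩ := exists_nat_gt C₁
  obtain ⟨n₃, hn₃⟩ := hunb K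
  have hev1 : ∀ᶠ y in 𝓝[<] (1 : ℝ), C₁ < (1 - y) * (gen A y) ^ k := by
    have h1 : Tendsto (fun y : ℝ => (K : ℝ) * y ^ n₃) (𝓝[<] 1) (𝓝 (K * 1)) := by
      have := ((continuous_pow n₃).tendsto (1 : ℝ)).mono_left (nhdsWithin_le_nhds (s := Set.Iio 1))
      rw [one_pow] at this
      exact this.const_mul _
    rw [mul_one] at h1
    filter_upwards [h1.eventually (lt_mem_nhds hK), eventually_lt_one_half] with y h2 ⟨h3, h4⟩
    exact h2.trans_le (gen_pow_ge A k (fun n hn => by exact_mod_cast hn₃ n hn) (by linarith) h4)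
  -- evaluation at the square
  have hsq : Tendsto (fun y : ℝ => y ^ 2) (𝓝[<] 1) (𝓝[<] 1) := by
    refine tendsto_nhdsWithin_iff.2 ⟨?_, ?_⟩
    · have := ((continuous_pow 2).tendsto (1 : ℝ)).mono_left (nhdsWithin_le_nhds (s := Set.Iio 1))
      rwa [one_pow] at this
    · filter_upwards [eventually_lt_one_half] with y ⟨h3, h4⟩
      show y ^ 2 < 1
      nlinarith
  obtain ⟨y, hy3, hy1, hyE, hy34, hylt⟩ := ((frequently_le hA).and_eventually
    (hev1.and ((hsq.eventually (hnobound (∑ n ∈ range N, a n))).and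
      eventually_lt_one_half))).exists
  have hy0 : 0 ≤ y := by linarith
  have hx12 : 1 / 2 ≤ y ^ 2 := by nlinarith
  have hx1 : y ^ 2 < 1 := by nlinarith
  have hxy : y ^ 2 ≤ y := by nlinarith
  have hy12 : 1 / 2 ≤ y := by linarith
  have h1y : 0 < 1 - y := by linarith
  have hΛy := hΛ0 y hy12 hylt
  have hΛx := hΛ0 (y ^ 2) hx12 hx1
  set M : ℝ := ε * (C / ((1 - y) * Λ y)) with hM
  have hM0 : 0 ≤ M := by positivity
  have hDx := square_sum_le (A := A) (k := k) (a := a) (b := b) (N := N) (x := y ^ 2) (y := y)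
    (M := M) (fun n hn => if_neg (by omega)) (fun n hn => if_neg (by omega)) (by positivity) hx1
    hy0 hylt (fun n => by
      have hyn : 0 ≤ y ^ n := pow_nonneg hy0 n
      by_cases hn : n < N
      · simp only [ha, hb, if_pos hn]
        have h3 : (inc A k n) ^ 2 * (y ^ 2) ^ n ≤ (inc A k n) ^ 2 :=
          mul_le_of_le_one_right (sq_nonneg _) (pow_le_one₀ (by positivity) hx1.le)
        have h4 : 0 ≤ inc A k n + |inc A k n| := by linarith [neg_abs_le (inc A k n)]
        have h5 : 0 ≤ M * ((inc A k n + |inc A k n|) * y ^ n) := by positivity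
        linarith
      · simp only [ha, hb, if_neg hn]
        push Not at hn
        have h3 := inc_nonneg hmono (n := n) (by omega)
        have h4 := (hN1 n hn).le
        have h5 := hω n (hN3.trans hn) y hy12 hylt
        rw [zero_add, add_zero]
        have h6 : (y ^ 2) ^ n = y ^ n * y ^ n := by rw [← pow_mul, two_mul, pow_add]
        rw [h6, sq]
        calc inc A k n * inc A k n * (y ^ n * y ^ n)
            ≤ inc A k n * (ε * ω n) * (y ^ n * y ^ n) := by gcongr
          _ = ε * (ω n * y ^ n) * (inc A k n * y ^ n) := by ring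
          _ ≤ ε * (C / ((1 - y) * Λ y)) * (inc A k n * y ^ n) := by gcongr
          _ = M * (inc A k n * y ^ n) := by rw [hM])
  have hbs : ∑ n ∈ range N, b n * y ^ n ≤ C₁ :=
    Finset.sum_le_sum fun n _ => mul_le_of_le_one_right (hb0 n) (pow_le_one₀ hy0 hylt.le)
  have h1 : ∑' n, (inc A k n) ^ 2 * (y ^ 2) ^ n ≤
      ∑ n ∈ range N, a n + 2 * ε * C * (gen A y) ^ k / Λ y := by
    refine hDx.trans ?_
    have h2 : (1 - y) * (gen A y) ^ k + ∑ n ∈ range N, b n * y ^ n ≤
        2 * ((1 - y) * (gen A y) ^ k) := by linarith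
    have h3 := mul_le_mul_of_nonneg_left h2 hM0
    have h4 : M * (2 * ((1 - y) * (gen A y) ^ k)) = 2 * ε * C * (gen A y) ^ k / Λ y := by
      rw [hM]
      field_simp
    linarith
  have h2 := hD (y ^ 2) hx12 hx1
  have h3 := mul_le_mul_of_nonneg_right h1 hΛx.le
  have hg0 : 0 ≤ (gen A y) ^ k := pow_nonneg (gen_nonneg A hy0) k
  have h4 : 2 * ε * C * (gen A y) ^ k / Λ y * Λ (y ^ 2) ≤ 2 * ε * C * (gen A y) ^ k := by
    rw [div_mul_eq_mul_div, div_le_iff₀ hΛy]
    exact mul_le_mul_of_nonneg_left (hΛm _ _ hx12 hxy hylt) (by positivity)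
  have h5 : (gen A y) ^ k ≤ 3 ^ k * (gen A (y ^ 2)) ^ k := by
    rw [← mul_pow]
    exact pow_le_pow_left₀ (gen_nonneg A hy0) hy3 k
  have h6 : 2 * ε * C * (gen A y) ^ k ≤ c / 2 * (gen A (y ^ 2)) ^ k := by
    have h7 := mul_le_mul_of_nonneg_left h5 (by positivity : (0 : ℝ) ≤ 2 * ε * C)
    have h8 : 2 * ε * C * (3 ^ k * (gen A (y ^ 2)) ^ k) = c / 2 * (gen A (y ^ 2)) ^ k := by
      rw [hε]
      field_simp
      ring
    linarith
  have h7 : (∑ n ∈ range N, a n) * Λ (y ^ 2) < c / 2 * (gen A (y ^ 2)) ^ k := hyE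
  rw [add_mul] at h3
  linarith

end Pool.Agent.H99.Jump
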