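import Pool.Agent.H99.Inc.Coeff
import Pool.Agent.H99.Inc.Binom

/-!
# Increments of representation functions
-/

open Finset PowerSeries
open Pool.Agent.H99.Inc

namespace Pool.Agent.H99.Jump

/-- The increments `r_1(A, n, k) - r_1(A, n - 1, k)`. -/
noncomputable def inc (A : Set ℕ) (k n : ℕ) : ℝ :=
  (R1 A k n : ℝ) - if n = 0 then 0 else (R1 A k (n - 1) : ℝ)

/-- The generating function of `A` at `x`. -/
noncomputable def gen (A : Set ℕ) (x : ℝ) : ℝ := ∑' n, ind A n * x ^ n

end Pool.Agent.H99.Jump
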