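import Pool.Agent.H99.Jump.Parseval

/-!
# The main inequality

Let `f = S (ind A) 1` (so `coeff n f = ind A n`), `r = f ^ k` (so `coeff n r = R1 A k n`, by
`Pool.Agent.H99.Inc.R1_eq_coeff`), `d = (1 - X) * r` (so `coeff n d = inc A k n`) and
`u = B (1 / (k - 1))` (so `coeff n u = bc (1 / (k - 1)) n ≤ 1` and `u ^ (k - 1) = B 1`, by `B_mul`,
`(1 - X) * B 1 = 1`, by `B_one` or `B_neg_one`). Everything converges absolutely for
`0 ≤ ρ < 1` (use `AbsConv.mul` for the powers). On the circle of radius `ρ = √x`: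
`‖f‖ ^ (2 k) = ‖d‖ ^ 2 * (‖u‖ ^ 2) ^ (k - 1)`. By the inequality of Hoelder with exponents `k` and
`k / (k - 1)` (`∫ ‖f‖ ^ 2 = ∫ (‖d‖ ^ 2) ^ (1 / k) * (‖u‖ ^ 2) ^ ((k - 1) / k)`;
`MeasureTheory.integral_mul_le_Lp_mul_Lq_of_nonneg`), or by the weighted inequality between the
means `a ^ (1 / k) * b ^ ((k - 1) / k) ≤ s a / k + (k - 1) / k * s ^ (- 1 / (k - 1)) * b` and the
optimal choice of `s`, one gets `(∫ ‖f‖ ^ 2) ^ k ≤ (∫ ‖d‖ ^ 2) * (∫ ‖u‖ ^ 2) ^ (k - 1)`. Now use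
`parseval` (`(ind A n) ^ 2 = ind A n`, the powers of `2 π` on both sides are the same).
-/

open Finset PowerSeries MeasureTheory
open Pool.Agent.H99.Inc

namespace Pool.Agent.H99.Jump

private theorem coeff_S_one (e : ℕ → ℝ) (n : ℕ) : coeff n (S e 1) = e n := by
  rw [S, coeff_mk, if_pos (one_dvd n), Nat.div_one]

private theorem ind_cases (A : Set ℕ) (n : ℕ) : ind A n = 0 ∨ ind A n = 1 := by
  classical
  rw [ind]
  by_cases h : n ∈ A
  · right; exact if_pos h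
  · left; exact if_neg h

private theorem absConv_of_bdd {f : PowerSeries ℝ} {ρ : ℝ} (h0 : 0 ≤ ρ) (h1 : ρ < 1)
    (hf : ∀ n, |coeff n f| ≤ 1) : AbsConv f ρ := by
  rw [AbsConv]
  refine Summable.of_nonneg_of_le (fun n => mul_nonneg (abs_nonneg _) (pow_nonneg h0 n))
    (fun n => ?_) (summable_geometric_of_lt_one h0 h1)
  have h2 := mul_le_mul_of_nonneg_right (hf n) (pow_nonneg h0 n)
  rwa [one_mul] at h2

private theorem absConv_one {ρ : ℝ} (h0 : 0 ≤ ρ) (h1 : ρ < 1) : AbsConv (1 : PowerSeries ℝ) ρ := by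
  apply absConv_of_bdd h0 h1
  intro n
  rw [coeff_one]
  split_ifs <;> simp

private theorem absConv_pow {f : PowerSeries ℝ} {ρ : ℝ} (h0 : 0 ≤ ρ) (h1 : ρ < 1)
    (hf : AbsConv f ρ) (m : ℕ) : AbsConv (f ^ m) ρ := by
  induction m with
  | zero => rw [pow_zero]; exact absConv_one h0 h1
  | succ m ih => rw [pow_succ]; exact AbsConv.mul h0 ih hf

private theorem ev_one (z : ℂ) : ev (1 : PowerSeries ℝ) z = 1 := by
  rw [ev, tsum_eq_single 0]
  · simp
  · intro n hn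
    rw [coeff_one, if_neg hn]
    simp

private theorem ev_pow {f : PowerSeries ℝ} {ρ : ℝ} (h0 : 0 ≤ ρ) (h1 : ρ < 1)
    (hf : AbsConv f ρ) {z : ℂ} (hz : ‖z‖ ≤ ρ) (m : ℕ) : ev (f ^ m) z = ev f z ^ m := by
  induction m with
  | zero => rw [pow_zero, pow_zero]; exact ev_one z
  | succ m ih => rw [pow_succ, pow_succ, ev_mul h0 (absConv_pow h0 h1 hf m) hf hz, ih]

private theorem B_pow (β : ℝ) (m : ℕ) : B β ^ m = B (m * β) := by
  induction m with
  | zero => rw [pow_zero, Nat.cast_zero, zero_mul, B_zero]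
  | succ m ih =>
    rw [pow_succ, ih, B_mul]
    congr 1
    push_cast
    ring

private theorem coeff_d (A : Set ℕ) (k n : ℕ) :
    coeff n ((1 - X) * (S (ind A) 1) ^ k) = inc A k n := by
  have hr : ∀ m, coeff m ((S (ind A) 1) ^ k) = (R1 A k m : ℝ) := by
    intro m
    rw [R1_eq_coeff, Finset.prod_const, Finset.card_univ, Fintype.card_fin]
  rw [sub_mul, one_mul, map_sub, hr, inc]
  congr 1
  rcases n with _ | n
  · simp
  · rw [coeff_succ_X_mul, hr]
    simp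

private theorem pointwise {a b c s : ℝ} {k : ℕ} (hk : 2 ≤ k) (ha : 0 ≤ a) (hb : 0 ≤ b)
    (hc : 0 ≤ c) (hs : 0 < s) (h : c ^ k = a * b ^ (k - 1)) :
    (k : ℝ) * c ≤ a * s ^ (k - 1) + ((k : ℝ) - 1) * (b / s) := by
  have hk1 : (1 : ℝ) ≤ k := by exact_mod_cast (by omega : 1 ≤ k)
  rcases hb.eq_or_lt with h0 | h0
  · have h2 : c = 0 := by
      have h3 : c ^ k = 0 := by
        rw [h, ← h0, zero_pow (by omega : k - 1 ≠ 0), mul_zero]
      exact pow_eq_zero_iff (by omega : k ≠ 0) |>.1 h3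
    rw [h2, mul_zero, ← h0, zero_div, mul_zero, add_zero]
    exact mul_nonneg ha (pow_nonneg hs.le _)
  · obtain ⟨m, rfl⟩ : ∃ m, k = m + 1 := ⟨k - 1, by omega⟩
    rw [Nat.add_sub_cancel] at h ⊢
    have hbs : 0 < b / s := div_pos h0 hs
    set t : ℝ := c / (b / s) with ht
    have ht0 : 0 ≤ t := div_nonneg hc hbs.le
    have hct : c = (b / s) * t := by
      rw [ht]
      field_simp
    have hB : 1 + ((m + 1 : ℕ) : ℝ) * (t - 1) ≤ (1 + (t - 1)) ^ (m + 1) :=
      one_add_mul_le_pow (by linarith) (m + 1)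
    rw [add_sub_cancel] at hB
    have h5 : a * s ^ m = (b / s) * t ^ (m + 1) := by
      have h6 : b ^ m ≠ 0 := (pow_pos h0 m).ne'
      have h7 : a = c ^ (m + 1) / b ^ m := by
        rw [h]
        field_simp
      have h8 : s ≠ 0 := hs.ne'
      have h9 : b ≠ 0 := h0.ne'
      rw [h7, hct, mul_pow, div_pow]
      field_simp
      ring
    rw [h5, hct]
    have h6 := mul_le_mul_of_nonneg_left hB hbs.le
    nlinarith [h6]

/-- Hölder from the weighted inequality. -/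
private theorem hoelder {a b c : ℝ → ℝ} {k : ℕ} (hk : 2 ≤ k) (ha : Continuous a)
    (hb : Continuous b) (hc : Continuous c) (ha0 : ∀ θ, 0 ≤ a θ) (hb0 : ∀ θ, 0 ≤ b θ)
    (hc0 : ∀ θ, 0 ≤ c θ) (h : ∀ θ, c θ ^ k = a θ * b θ ^ (k - 1))
    {L : ℝ} (hL : 0 ≤ L) (hIb : 0 < ∫ θ in (0 : ℝ)..L, b θ) :
    (∫ θ in (0 : ℝ)..L, c θ) ^ k ≤
      (∫ θ in (0 : ℝ)..L, a θ) * (∫ θ in (0 : ℝ)..L, b θ) ^ (k - 1) := by
  set Ia := ∫ θ in (0 : ℝ)..L, a θ with hIa
  set Ib := ∫ θ in (0 : ℝ)..L, b θ with hIbd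
  set Ic := ∫ θ in (0 : ℝ)..L, c θ with hIc
  have hIa0 : 0 ≤ Ia := intervalIntegral.integral_nonneg hL (fun θ _ => ha0 θ)
  have hIc0 : 0 ≤ Ic := intervalIntegral.integral_nonneg hL (fun θ _ => hc0 θ)
  rcases hIc0.eq_or_lt with h0 | h0
  · rw [← h0, zero_pow (by omega : k ≠ 0)]
    exact mul_nonneg hIa0 (pow_nonneg hIb.le _)
  · set s := Ib / Ic with hs
    have hs0 : 0 < s := div_pos hIb h0
    have h1 : ∫ θ in (0 : ℝ)..L, (k : ℝ) * c θ ≤
        ∫ θ in (0 : ℝ)..L, (a θ * s ^ (k - 1) + ((k : ℝ) - 1) * (b θ / s)) := by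
      apply intervalIntegral.integral_mono_on hL
      · exact (continuous_const.mul hc).intervalIntegrable _ _
      · exact Continuous.intervalIntegrable
          ((ha.mul continuous_const).add (continuous_const.mul (hb.div_const _))) _ _
      · intro θ _
        exact pointwise hk (ha0 θ) (hb0 θ) (hc0 θ) hs0 (h θ)
    have i1 : IntervalIntegrable (fun θ => a θ * s ^ (k - 1)) volume 0 L :=
      Continuous.intervalIntegrable (ha.mul continuous_const) _ _
    have i2 : IntervalIntegrable (fun θ => ((k : ℝ) - 1) * (b θ / s)) volume 0 L :=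
      Continuous.intervalIntegrable (continuous_const.mul (hb.div_const _)) _ _
    rw [intervalIntegral.integral_const_mul, intervalIntegral.integral_add i1 i2,
      intervalIntegral.integral_mul_const, intervalIntegral.integral_const_mul,
      intervalIntegral.integral_div, ← hIa, ← hIbd, ← hIc] at h1
    have h2 : Ib / s = Ic := by
      rw [hs]
      field_simp
    rw [h2] at h1
    have h3 : Ic ≤ Ia * s ^ (k - 1) := by linarith
    have h4 : Ic * Ic ^ (k - 1) ≤ Ia * s ^ (k - 1) * Ic ^ (k - 1) :=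
      mul_le_mul_of_nonneg_right h3 (pow_nonneg h0.le _)
    have h5 : Ic ^ k = Ic * Ic ^ (k - 1) := by
      rw [← pow_succ']
      congr 1
      omega
    have h6 : s ^ (k - 1) * Ic ^ (k - 1) = Ib ^ (k - 1) := by
      rw [← mul_pow, hs]
      congr 1
      field_simp
    rw [h5]
    calc Ic * Ic ^ (k - 1) ≤ Ia * s ^ (k - 1) * Ic ^ (k - 1) := h4
      _ = Ia * (s ^ (k - 1) * Ic ^ (k - 1)) := by ring
      _ = Ia * Ib ^ (k - 1) := by rw [h6]

theorem main_ineq (A : Set ℕ) {k : ℕ} (hk : 2 ≤ k) {x : ℝ} (h0 : 0 < x) (h1 : x < 1) :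
    (gen A x) ^ k ≤ (∑' n, (inc A k n) ^ 2 * x ^ n) *
      (∑' n, (bc (1 / ((k : ℝ) - 1)) n) ^ 2 * x ^ n) ^ (k - 1) := by
  set ρ := Real.sqrt x with hρ
  have hρ0 : 0 ≤ ρ := Real.sqrt_nonneg x
  have hρ1 : ρ < 1 := by
    rw [hρ, Real.sqrt_lt' one_pos, one_pow]
    exact h1
  have hρ2 : ρ ^ 2 = x := Real.sq_sqrt h0.le
  have hk1 : (0 : ℝ) < (k : ℝ) - 1 := by
    have : (2 : ℝ) ≤ k := by exact_mod_cast hk
    linarith
  set β : ℝ := 1 / ((k : ℝ) - 1) with hβ
  have hβ0 : 0 ≤ β := by positivity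
  have hβ1 : β ≤ 1 := by
    rw [hβ, div_le_one hk1]
    have : (2 : ℝ) ≤ k := by exact_mod_cast hk
    linarith
  set f := S (ind A) 1 with hf
  set d := (1 - X) * f ^ k with hd
  have hfc : ∀ n, coeff n f = ind A n := fun n => coeff_S_one _ n
  have hdc : ∀ n, coeff n d = inc A k n := fun n => coeff_d A k n
  have huc : ∀ n, coeff n (B β) = bc β n := fun n => by rw [B, coeff_mk]
  have hfA : AbsConv f ρ := by
    apply absConv_of_bdd hρ0 hρ1
    intro n
    rw [hfc]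
    rcases ind_cases A n with h | h <;> rw [h] <;> simp
  have huA : AbsConv (B β) ρ := by
    apply absConv_of_bdd hρ0 hρ1
    intro n
    rw [huc, abs_of_nonneg (bc_nonneg hβ0 n)]
    exact bc_le_one hβ0 hβ1 n
  have h1X : AbsConv (1 - X : PowerSeries ℝ) ρ := by
    apply absConv_of_bdd hρ0 hρ1
    intro n
    rw [map_sub, coeff_one, coeff_X]
    rcases n with _ | _ | n <;> simp
  have hdA : AbsConv d ρ := AbsConv.mul hρ0 h1X (absConv_pow hρ0 hρ1 hfA k)
  have hident : f ^ k = d * (B β) ^ (k - 1) := by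
    have h2 : (B β) ^ (k - 1) = B 1 := by
      rw [B_pow]
      congr 1
      rw [Nat.cast_sub (by omega : 1 ≤ k), Nat.cast_one, hβ]
      field_simp
    have h3 : (1 - X : PowerSeries ℝ) * B 1 = 1 := by
      rw [← B_neg_one, B_mul, neg_add_cancel, B_zero]
    rw [h2, hd, mul_comm (1 - X) (f ^ k), mul_assoc, h3, mul_one]
  have hnorm : ∀ θ : ℝ, ‖ev f (ρ * Complex.exp (θ * Complex.I))‖ ^ k =
      ‖ev d (ρ * Complex.exp (θ * Complex.I))‖ *
        ‖ev (B β) (ρ * Complex.exp (θ * Complex.I))‖ ^ (k - 1) := by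
    intro θ
    have hz : ‖((ρ : ℂ) * Complex.exp (θ * Complex.I))‖ ≤ ρ := by
      rw [norm_mul, Complex.norm_exp_ofReal_mul_I, mul_one, Complex.norm_real,
        Real.norm_of_nonneg hρ0]
    rw [← norm_pow, ← norm_pow, ← norm_mul, ← ev_pow hρ0 hρ1 hfA hz, hident,
      ev_mul hρ0 hdA (absConv_pow hρ0 hρ1 huA _) hz, ev_pow hρ0 hρ1 huA hz]
  have hcf : Continuous fun θ : ℝ => ‖ev f (ρ * Complex.exp (θ * Complex.I))‖ ^ 2 :=
    (continuous_ev hρ0 hfA).norm.pow 2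
  have hcd : Continuous fun θ : ℝ => ‖ev d (ρ * Complex.exp (θ * Complex.I))‖ ^ 2 :=
    (continuous_ev hρ0 hdA).norm.pow 2
  have hcu : Continuous fun θ : ℝ => ‖ev (B β) (ρ * Complex.exp (θ * Complex.I))‖ ^ 2 :=
    (continuous_ev hρ0 huA).norm.pow 2
  have hpf := parseval hρ0 hfA
  have hpd := parseval hρ0 hdA
  have hpu := parseval hρ0 huA
  have e1 : (∑' n, (coeff n f) ^ 2 * (ρ ^ 2) ^ n) = gen A x := by
    rw [gen]
    apply tsum_congr
    intro n
    rw [hfc, hρ2]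
    rcases ind_cases A n with h | h <;> rw [h] <;> simp
  have e2 : (∑' n, (coeff n d) ^ 2 * (ρ ^ 2) ^ n) = ∑' n, (inc A k n) ^ 2 * x ^ n := by
    apply tsum_congr
    intro n
    rw [hdc, hρ2]
  have e3 : (∑' n, (coeff n (B β)) ^ 2 * (ρ ^ 2) ^ n) = ∑' n, (bc β n) ^ 2 * x ^ n := by
    apply tsum_congr
    intro n
    rw [huc, hρ2]
  rw [e1] at hpf
  rw [e2] at hpd
  rw [e3] at hpu
  have hU : 1 ≤ ∑' n, (bc β n) ^ 2 * x ^ n := by
    have hsum : Summable fun n => (bc β n) ^ 2 * x ^ n := by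
      refine Summable.of_nonneg_of_le (fun n => mul_nonneg (sq_nonneg _) (pow_nonneg h0.le n))
        (fun n => ?_) (summable_geometric_of_lt_one h0.le h1)
      have h4 : (bc β n) ^ 2 ≤ 1 := by
        have h5 := bc_nonneg hβ0 n
        have h6 := bc_le_one hβ0 hβ1 n
        nlinarith
      have h7 := mul_le_mul_of_nonneg_right h4 (pow_nonneg h0.le n)
      rwa [one_mul] at h7
    have h8 := hsum.le_tsum 0 (fun n _ => mul_nonneg (sq_nonneg _) (pow_nonneg h0.le n))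
    rw [bc_zero_idx] at h8
    simpa using h8
  have hπ : 0 < 2 * Real.pi := Real.two_pi_pos
  have hmain := hoelder hk hcd hcu hcf (fun θ => sq_nonneg _) (fun θ => sq_nonneg _)
    (fun θ => sq_nonneg _) (fun θ => by
      rw [← pow_mul, mul_comm 2 k, pow_mul, hnorm θ, mul_pow, ← pow_mul, ← pow_mul,
        mul_comm (k - 1) 2]) hπ.le (by
      rw [hpu]
      exact mul_pos hπ (by linarith))
  rw [hpf, hpd, hpu] at hmain
  have e4 : 2 * Real.pi * (∑' n, (inc A k n) ^ 2 * x ^ n) *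
      (2 * Real.pi * ∑' n, (bc β n) ^ 2 * x ^ n) ^ (k - 1) =
      (2 * Real.pi) ^ k * ((∑' n, (inc A k n) ^ 2 * x ^ n) *
        (∑' n, (bc β n) ^ 2 * x ^ n) ^ (k - 1)) := by
    obtain ⟨m, rfl⟩ : ∃ m, k = m + 1 := ⟨k - 1, by omega⟩
    rw [Nat.add_sub_cancel, mul_pow, pow_succ]
    ring
  rw [e4, mul_pow] at hmain
  exact le_of_mul_le_mul_left hmain (pow_pos hπ k)

end Pool.Agent.H99.Jump
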