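import Pool.Agent.H99.Jump.Defs

/-!
# Evaluation of power series on circles and the identity of Parseval

`AbsConv f ρ` and `AbsConv g ρ` imply `AbsConv (f * g) ρ` and `ev (f * g) z = ev f z * ev g z` for
`‖z‖ ≤ ρ` (Cauchy product: `tsum_mul_tsum_eq_tsum_sum_antidiagonal_of_summable_norm`,
`summable_norm_sum_mul_antidiagonal_of_summable_norm`, `PowerSeries.coeff_mul`).
`parseval`: expand `‖ev f z‖ ^ 2` as an absolutely convergent double series and integrate term by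
term (`integral_tsum`, or `hasSum_integral_of_summable_norm`), or use
`tsum_sq_fourierCoeff` of Mathlib for the continuous function on the circle.
-/

open Finset PowerSeries MeasureTheory
open Pool.Agent.H99.Inc

namespace Pool.Agent.H99.Jump

/-- Absolute convergence on the closed disc of radius `ρ`. -/
def AbsConv (f : PowerSeries ℝ) (ρ : ℝ) : Prop := Summable fun n => |coeff n f| * ρ ^ n

/-- Evaluation. -/
noncomputable def ev (f : PowerSeries ℝ) (z : ℂ) : ℂ := ∑' n, ((coeff n f : ℝ) : ℂ) * z ^ n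

private theorem pv_term {f g : PowerSeries ℝ} (z : ℂ) (n : ℕ) :
    ∑ kl ∈ antidiagonal n, (((coeff kl.1 f : ℝ) : ℂ) * z ^ kl.1) * (((coeff kl.2 g : ℝ) : ℂ) * z ^ kl.2) =
      ((coeff n (f * g) : ℝ) : ℂ) * z ^ n := by
  rw [PowerSeries.coeff_mul]
  push_cast
  rw [sum_mul]
  refine sum_congr rfl fun kl hkl => ?_
  rw [Finset.HasAntidiagonal.mem_antidiagonal] at hkl
  rw [← hkl, pow_add]
  ring

private theorem pv_norm {f : PowerSeries ℝ} {ρ : ℝ} (_h0 : 0 ≤ ρ) (hf : AbsConv f ρ) {z : ℂ}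
    (hz : ‖z‖ ≤ ρ) : Summable fun n => ‖((coeff n f : ℝ) : ℂ) * z ^ n‖ := by
  refine Summable.of_nonneg_of_le (fun n => norm_nonneg _) (fun n => ?_) hf
  rw [norm_mul, norm_pow, Complex.norm_real, Real.norm_eq_abs]
  exact mul_le_mul_of_nonneg_left (pow_le_pow_left₀ (norm_nonneg z) hz n) (abs_nonneg _)

theorem AbsConv.mul {f g : PowerSeries ℝ} {ρ : ℝ} (h0 : 0 ≤ ρ) (hf : AbsConv f ρ)
    (hg : AbsConv g ρ) : AbsConv (f * g) ρ := by
  have hz : ‖(ρ : ℂ)‖ ≤ ρ := by rw [Complex.norm_real, Real.norm_of_nonneg h0]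
  have h := summable_norm_sum_mul_antidiagonal_of_summable_norm (pv_norm h0 hf hz) (pv_norm h0 hg hz)
  refine h.congr fun n => ?_
  rw [pv_term, norm_mul, norm_pow, Complex.norm_real, Complex.norm_real, Real.norm_eq_abs,
    Real.norm_of_nonneg h0]

theorem ev_mul {f g : PowerSeries ℝ} {ρ : ℝ} (h0 : 0 ≤ ρ) (hf : AbsConv f ρ) (hg : AbsConv g ρ)
    {z : ℂ} (hz : ‖z‖ ≤ ρ) : ev (f * g) z = ev f z * ev g z := by
  unfold ev
  rw [tsum_mul_tsum_eq_tsum_sum_antidiagonal_of_summable_norm (pv_norm h0 hf hz) (pv_norm h0 hg hz)]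
  exact tsum_congr fun n => (pv_term z n).symm

private theorem pv_circle {ρ : ℝ} (h0 : 0 ≤ ρ) (θ : ℝ) :
    ‖(ρ : ℂ) * Complex.exp (θ * Complex.I)‖ = ρ := by
  rw [norm_mul, Complex.norm_exp_ofReal_mul_I, mul_one, Complex.norm_real, Real.norm_of_nonneg h0]

theorem continuous_ev {f : PowerSeries ℝ} {ρ : ℝ} (h0 : 0 ≤ ρ) (hf : AbsConv f ρ) :
    Continuous fun θ : ℝ => ev f (ρ * Complex.exp (θ * Complex.I)) := by
  unfold ev
  refine continuous_tsum (fun n => by fun_prop) hf fun n θ => ?_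
  rw [norm_mul, norm_pow, pv_circle h0, Complex.norm_real, Real.norm_eq_abs]

private theorem pv_int (a b : ℕ) :
    ∫ θ in (0 : ℝ)..(2 * Real.pi), Complex.exp ((((a : ℤ) - (b : ℤ) : ℤ) : ℂ) * (θ * Complex.I)) =
      if a = b then ((2 * Real.pi : ℝ) : ℂ) else 0 := by
  split_ifs with h
  · subst h
    simp
  · have hk : (((a : ℤ) - (b : ℤ) : ℤ) : ℂ) ≠ 0 := by
      rw [Int.cast_ne_zero]
      omega
    have hc : (((a : ℤ) - (b : ℤ) : ℤ) : ℂ) * Complex.I ≠ 0 := mul_ne_zero hk Complex.I_ne_zero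
    have h1 : ∀ θ : ℝ, Complex.exp ((((a : ℤ) - (b : ℤ) : ℤ) : ℂ) * (θ * Complex.I)) =
        Complex.exp (((((a : ℤ) - (b : ℤ) : ℤ) : ℂ) * Complex.I) * θ) := by
      intro θ
      congr 1
      ring
    simp_rw [h1]
    rw [integral_exp_mul_complex hc]
    have h2 : ((((a : ℤ) - (b : ℤ) : ℤ) : ℂ) * Complex.I) * ((2 * Real.pi : ℝ) : ℂ) =
        (((a : ℤ) - (b : ℤ) : ℤ) : ℂ) * (2 * Real.pi * Complex.I) := by
      push_cast
      ring
    rw [h2, Complex.exp_int_mul_two_pi_mul_I]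
    simp

theorem parseval {f : PowerSeries ℝ} {ρ : ℝ} (h0 : 0 ≤ ρ) (hf : AbsConv f ρ) :
    ∫ θ in (0 : ℝ)..(2 * Real.pi), ‖ev f (ρ * Complex.exp (θ * Complex.I))‖ ^ 2 =
      2 * Real.pi * ∑' n, (coeff n f) ^ 2 * (ρ ^ 2) ^ n := by
  obtain ⟨a, ha⟩ : ∃ a : ℕ → ℝ, a = fun n => coeff n f * ρ ^ n := ⟨_, rfl⟩
  have hann : ∀ n, ‖a n‖ = |coeff n f| * ρ ^ n := by
    intro n
    rw [ha]
    simp only [norm_mul, norm_pow, Real.norm_eq_abs, abs_of_nonneg h0]
  have hasum : Summable fun n => ‖a n‖ := hf.congr fun n => (hann n).symm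
  have hprod : Summable fun x : ℕ × ℕ => ‖a x.1‖ * ‖a x.2‖ :=
    hasum.mul_of_nonneg hasum (fun n => norm_nonneg _) (fun n => norm_nonneg _)
  -- the series
  have hterm : ∀ (n : ℕ) (θ : ℝ), ((coeff n f : ℝ) : ℂ) * ((ρ : ℂ) * Complex.exp (θ * Complex.I)) ^ n =
      (a n : ℂ) * Complex.exp ((n : ℂ) * (θ * Complex.I)) := by
    intro n θ
    rw [ha]
    push_cast
    rw [mul_pow, ← Complex.exp_nat_mul]
    ring
  have hev : ∀ θ : ℝ, HasSum (fun n => (a n : ℂ) * Complex.exp ((n : ℂ) * (θ * Complex.I)))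
      (ev f (ρ * Complex.exp (θ * Complex.I))) := by
    intro θ
    have h1 : Summable fun n => ((coeff n f : ℝ) : ℂ) * ((ρ : ℂ) * Complex.exp (θ * Complex.I)) ^ n :=
      (pv_norm h0 hf (pv_circle h0 θ).le).of_norm
    have h2 := h1.hasSum
    simp only [hterm] at h2
    unfold ev
    simp only [hterm]
    exact h2
  have hev' : ∀ θ : ℝ, HasSum (fun n => (a n : ℂ) * Complex.exp (-((n : ℂ) * (θ * Complex.I))))
      ((starRingEnd ℂ) (ev f (ρ * Complex.exp (θ * Complex.I)))) := by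
    intro θ
    have h1 := (hev θ).map (starRingEnd ℂ) Complex.continuous_conj
    have h2 : (starRingEnd ℂ) ∘ (fun n => (a n : ℂ) * Complex.exp ((n : ℂ) * (θ * Complex.I))) =
        fun n => (a n : ℂ) * Complex.exp (-((n : ℂ) * (θ * Complex.I))) := by
      funext n
      simp only [Function.comp_apply, map_mul, Complex.conj_ofReal, ← Complex.exp_conj,
        Complex.conj_I, map_natCast, mul_neg]
    rw [h2] at h1
    exact h1
  have hF : ∀ θ : ℝ, HasSum (fun x : ℕ × ℕ => ((a x.1 : ℂ) * (a x.2 : ℂ)) *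
      Complex.exp ((((x.1 : ℤ) - (x.2 : ℤ) : ℤ) : ℂ) * (θ * Complex.I)))
      (((‖ev f (ρ * Complex.exp (θ * Complex.I))‖ ^ 2 : ℝ)) : ℂ) := by
    intro θ
    have hn : ∀ n : ℕ, ‖(a n : ℂ) * Complex.exp ((n : ℂ) * (θ * Complex.I))‖ = ‖a n‖ := by
      intro n
      rw [norm_mul, Complex.norm_real]
      have : (n : ℂ) * (θ * Complex.I) = ((n * θ : ℝ) : ℂ) * Complex.I := by
        push_cast
        ring
      rw [this, Complex.norm_exp_ofReal_mul_I, mul_one]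
    have hn' : ∀ n : ℕ, ‖(a n : ℂ) * Complex.exp (-((n : ℂ) * (θ * Complex.I)))‖ = ‖a n‖ := by
      intro n
      rw [norm_mul, Complex.norm_real]
      have : -((n : ℂ) * (θ * Complex.I)) = ((-(n * θ) : ℝ) : ℂ) * Complex.I := by
        push_cast
        ring
      rw [this, Complex.norm_exp_ofReal_mul_I, mul_one]
    have h1 := (hev θ).mul (hev' θ) (by
      refine Summable.of_norm ?_
      refine hprod.congr fun x => ?_
      rw [norm_mul, hn, hn'])
    have h3 : (fun x : ℕ × ℕ => (a x.1 : ℂ) * Complex.exp ((x.1 : ℂ) * (θ * Complex.I)) *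
        ((a x.2 : ℂ) * Complex.exp (-((x.2 : ℂ) * (θ * Complex.I))))) =
        fun x : ℕ × ℕ => ((a x.1 : ℂ) * (a x.2 : ℂ)) *
          Complex.exp ((((x.1 : ℤ) - (x.2 : ℤ) : ℤ) : ℂ) * (θ * Complex.I)) := by
      funext x
      rw [mul_mul_mul_comm, ← Complex.exp_add]
      congr 2
      push_cast
      ring
    rw [h3] at h1
    rw [Complex.mul_conj'] at h1
    have h2 : (((‖ev f (ρ * Complex.exp (θ * Complex.I))‖ ^ 2 : ℝ)) : ℂ) =
        (‖ev f (ρ * Complex.exp (θ * Complex.I))‖ : ℂ) ^ 2 := by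
      push_cast
      rfl
    rw [h2]
    exact h1
  have hI := intervalIntegral.hasSum_integral_of_dominated_convergence
    (μ := volume) (a := 0) (b := 2 * Real.pi)
    (F := fun (x : ℕ × ℕ) (θ : ℝ) => ((a x.1 : ℂ) * (a x.2 : ℂ)) *
      Complex.exp ((((x.1 : ℤ) - (x.2 : ℤ) : ℤ) : ℂ) * (θ * Complex.I)))
    (f := fun θ : ℝ => (((‖ev f (ρ * Complex.exp (θ * Complex.I))‖ ^ 2 : ℝ)) : ℂ))
    (fun x _ => ‖a x.1‖ * ‖a x.2‖)
    (fun x => Continuous.aestronglyMeasurable (by fun_prop))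
    (fun x => Filter.Eventually.of_forall fun θ _ => by
      rw [norm_mul, norm_mul, Complex.norm_real, Complex.norm_real]
      have : (((x.1 : ℤ) - (x.2 : ℤ) : ℤ) : ℂ) * (θ * Complex.I) =
          (((((x.1 : ℤ) - (x.2 : ℤ) : ℤ) : ℝ) * θ : ℝ) : ℂ) * Complex.I := by
        push_cast
        ring
      rw [this, Complex.norm_exp_ofReal_mul_I, mul_one])
    (Filter.Eventually.of_forall fun θ _ => hprod)
    intervalIntegrable_const
    (Filter.Eventually.of_forall fun θ _ => hF θ)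
  have hval : ∀ x : ℕ × ℕ, (∫ θ in (0 : ℝ)..(2 * Real.pi), ((a x.1 : ℂ) * (a x.2 : ℂ)) *
      Complex.exp ((((x.1 : ℤ) - (x.2 : ℤ) : ℤ) : ℂ) * (θ * Complex.I))) =
      ((a x.1 : ℂ) * (a x.2 : ℂ)) * (if x.1 = x.2 then ((2 * Real.pi : ℝ) : ℂ) else 0) := by
    intro x
    rw [intervalIntegral.integral_const_mul, pv_int]
  simp only [hval] at hI
  have hinj : Function.Injective fun n : ℕ => (n, n) := fun m n h => (Prod.ext_iff.1 h).1
  rw [← hinj.hasSum_iff (by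
    intro x hx
    have : x.1 ≠ x.2 := fun h => hx ⟨x.1, Prod.ext rfl h⟩
    rw [if_neg this, mul_zero])] at hI
  rw [intervalIntegral.integral_ofReal] at hI
  have hI2 : HasSum (fun n : ℕ => ((2 * Real.pi * ((coeff n f) ^ 2 * (ρ ^ 2) ^ n) : ℝ) : ℂ))
      ((∫ θ in (0 : ℝ)..(2 * Real.pi), ‖ev f (ρ * Complex.exp (θ * Complex.I))‖ ^ 2 : ℝ) : ℂ) := by
    have he : (fun n : ℕ => ((2 * Real.pi * ((coeff n f) ^ 2 * (ρ ^ 2) ^ n) : ℝ) : ℂ)) =
        ((fun x : ℕ × ℕ => ((a x.1 : ℂ) * (a x.2 : ℂ)) *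
          (if x.1 = x.2 then ((2 * Real.pi : ℝ) : ℂ) else 0)) ∘ fun n : ℕ => (n, n)) := by
      funext n
      simp only [Function.comp_apply, if_true]
      rw [ha]
      push_cast
      ring
    rw [he]
    exact hI
  have hI3 := (Complex.hasSum_ofReal.1 hI2).tsum_eq
  rw [← hI3, tsum_mul_left]

end Pool.Agent.H99.Jump
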